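import Pool.Agent.NBT.StmtsA

/-!
# NBT squad (MP_e54c4c_gt), row MVB: basic facts on moves
-/

set_option autoImplicit false

open Matrix Filter Topology

namespace Pool.Agent.NBT.H81

open Pool.Agent.PFS Pool.Agent.PFJ Pool.Agent.NBT

variable {n K : ℕ} {C : Set (V n)}

theorem sum_two (w : Fin K → V n) {k i : Fin K} (hki : k ≠ i) (a b : ℝ) :
    ∑ j, (if j = k then a else if j = i then b else 0) • w j = a • w k + b • w i := by
  have h1 : ∀ j, (if j = k then a else if j = i then b else 0) • w j =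
      (if j = k then a • w k else 0) + (if j = i then b • w i else 0) := by
    intro j
    by_cases hk : j = k
    · subst hk
      simp [hki]
    · by_cases hi : j = i
      · subst hi
        simp [hk]
      · simp [hk, hi]
  rw [Finset.sum_congr rfl fun j _ => h1 j, Finset.sum_add_distrib]
  simp

theorem nng_two (h : PCone C) {w : Fin K → V n} (hw : PES C w) {k i : Fin K} (hki : k ≠ i)
    {a b : ℝ} (hc : a • w k + b • w i ∈ closure C) : 0 ≤ a ∧ 0 ≤ b := by
  rw [← sum_two w hki] at hc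
  have h1 := nng n C h (Fin K) w hw _ hc
  have hk := h1 k
  have hi := h1 i
  rw [if_pos rfl] at hk
  rw [if_neg hki.symm, if_pos rfl] at hi
  exact ⟨hk, hi⟩

/-- a positive combination of `w k`, `w i` is a unit of `BI C w {k, i}` -/
theorem unt_pos (h : PCone C) {w : Fin K → V n} (hw : ∀ j, w j ∈ closure C) {k i : Fin K}
    (hki : k ≠ i) (hu : Unt C (BI C w {k, i}) (fS w {k, i})) {z : V n}
    (hz : z ∈ BI C w {k, i}) {a b : ℝ} (ha : 0 < a) (hb : 0 < b)
    (hzab : z = a • w k + b • w i) : Unt C (BI C w {k, i}) z := by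
  obtain ⟨h1, h2, -⟩ := Pool.Agent.PFJ.H76.unf n C h _ _ hu
  have he : 0 < min a b := lt_min ha hb
  obtain ⟨-, h3, -⟩ := Pool.Agent.PFJ.H76.unf n C h _ _ (h1 (min a b) he)
  refine h3 z hz ?_
  have h4 : z - min a b • fS w {k, i} = (a - min a b) • w k + (b - min a b) • w i := by
    rw [hzab, fS_pair w hki, smul_add, sub_smul, sub_smul]
    abel
  rw [h4]
  exact h.cl_add (h.cl_smul (hw k) (sub_nonneg.mpr (min_le_left _ _)))
    (h.cl_smul (hw i) (sub_nonneg.mpr (min_le_right _ _)))

theorem mvb (hTbf : TbfStmt) (hPje : PjeStmt) (hPjf : PjfStmt) : MvbStmt := by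
  intro n C Γ Γ₀ K T c h w hw k
  have hP : PCone C := h.cc.toPCone
  obtain ⟨t1, t2, t3, t4, t5, t6, t7, t8, t9, t10, t11, t12, t13⟩ :=
    hTbf n C Γ Γ₀ K T c h w hw
  have hwcl : ∀ j, w j ∈ closure C := fun j => h.cc.hul.lamCl _ ((h.pes w hw).2 j)
  refine ⟨?_, ?_⟩
  · intro x hx
    obtain ⟨w', hw'⟩ : ∃ w', w' = Function.update w k x := ⟨_, rfl⟩
    have hT' : T w' := by rw [hw']; exact hx.mem
    have hk' : w' k = x := by rw [hw']; exact Function.update_self k x w
    have ho' : ∀ j, j ≠ k → w' j = w j := fun j hj => by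
      rw [hw']; exact Function.update_of_ne hj x w
    obtain ⟨u1, u2, u3, u4, u5, u6, u7, u8, u9, u10, u11, u12, u13⟩ :=
      hTbf n C Γ Γ₀ K T c h w' hT'
    have hxL : x ∈ LamC C Γ := by rw [← hk']; exact (h.pes w' hT').2 k
    have hxc : x ∈ closure C := h.cc.hul.lamCl _ hxL
    have hx0 : x ≠ 0 := h.cc.hul.lamNe _ hxL
    refine ⟨hxc, hx0, by rw [← hk']; exact u7 k, hxL, ?_⟩
    intro i hik p hp
    obtain ⟨p', hp'⟩ := hPje n C Γ Γ₀ K T c h w' hT' {k, i}
    obtain ⟨-, -, -, -, -, j6, -⟩ := hPjf n C Γ Γ₀ K T c h w hw {k, i} p hp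
    have hout : ∀ m, m ∉ ({k, i} : Finset (Fin K)) → w' m = w m := by
      intro m hm
      refine ho' m ?_
      rintro rfl
      exact hm (by simp)
    have hpp := (j6 w' hT' hout p' hp').2
    have hxB : x ∈ BI C w' {k, i} := by
      have := (u6 k {k, i}).mpr (by simp)
      rwa [hk'] at this
    have hiB' : w i ∈ BI C w' {k, i} := by
      have := (u6 i {k, i}).mpr (by simp)
      rwa [ho' i hik] at this
    have hiB : w i ∈ BI C w {k, i} := (t6 i {k, i}).mpr (by simp)
    have e1 : p' (p x) = x := hpp x hxB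
    have e2 : p' (w i) = w i := hp'.idB _ hiB'
    have c1 : p x ∈ closure C := hp.pos x hxc
    have c2 : p x ≠ 0 := by
      intro h0
      rw [h0, map_zero] at e1
      exact hx0 e1.symm
    have c3 : ¬ Unt C (BI C w {k, i}) (p x) := by
      intro hu
      obtain ⟨M, hM, hMc⟩ := hu.2.2 (w i) hiB
      have h1 := hp'.pos _ hMc
      rw [map_sub, map_smul, e1, e2] at h1
      have h2 : M • w' k + (-1 : ℝ) • w' i ∈ closure C := by
        rw [hk', ho' i hik, neg_smul, one_smul, ← sub_eq_add_neg]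
        exact h1
      have h3 := (nng_two hP (h.pes w' hT').1 hik.symm h2).2
      linarith
    have c4 : ∀ a : ℝ, p x ≠ a • w i := by
      intro a ha
      rw [ha, map_smul, e2] at e1
      have h2 : (-1 : ℝ) • w' k + a • w' i ∈ closure C := by
        rw [hk', ho' i hik, e1, neg_smul, one_smul, neg_add_cancel]
        exact hP.zero_cl
      have h3 := (nng_two hP (h.pes w' hT').1 hik.symm h2).1
      linarith
    refine ⟨c1, c2, c3, c4, ?_⟩
    intro hc2
    obtain ⟨a, b, hab⟩ := t10 k i hik.symm hc2 (p x) (hp.mem x)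
    have h1 : 0 ≤ a ∧ 0 ≤ b := nng_two hP (h.pes w hw).1 hik.symm (by rw [← hab]; exact c1)
    rcases h1.2.eq_or_lt with hb | hb
    · exact ⟨a, by rw [hab, ← hb, zero_smul, add_zero]⟩
    · rcases h1.1.eq_or_lt with ha | ha
      · exact absurd (by rw [hab, ← ha, zero_smul, zero_add]) (c4 b)
      · exact absurd (unt_pos hP hwcl hik.symm (t1 {k, i}) (hp.mem x) ha hb hab) c3
  · intro J hkJ i hiJ p hp y hyB hyc
    obtain ⟨j1, -⟩ := hPjf n C Γ Γ₀ K T c h w hw {k, i} p hp
    obtain ⟨M, hM, hMc⟩ := (t1 J).2.2 y hyB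
    have h1 := hp.pos _ hMc
    have hpf : p (fS w J) = w k := by
      unfold fS
      rw [map_sum, Finset.sum_eq_single_of_mem k hkJ]
      · exact hp.idB _ ((t6 k {k, i}).mpr (by simp))
      · intro j hj hjk
        refine j1 j ?_
        intro hj2
        rw [Finset.mem_insert, Finset.mem_singleton] at hj2
        rcases hj2 with h2 | h2
        · exact hjk h2
        · exact hiJ (h2 ▸ hj)
    rw [map_sub, map_smul, hpf] at h1
    exact t7 k (p y) (hp.pos y hyc) M h1

end Pool.Agent.NBT.H81
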