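import Pool.Agent.NBT.StmtsA

/-!
# NBT squad (MP_e54c4c_gt), row ZPR: projections along the zoom
-/

set_option autoImplicit false

open Matrix Filter Topology

namespace Pool.Agent.NBT.H81

open Pool.Agent.PFS Pool.Agent.PFJ Pool.Agent.NBT Pool.Agent.PCO

variable {n K : ℕ} {C : Set (V n)}

/-- `Sml` may be tested at one point of `C` -/
theorem sml_of (h : PCone C) {v z p : V n}
    (hz : ∀ δ : ℝ, 0 < δ → ∃ κ : ℝ, 0 < κ ∧ κ • v + δ • p - z ∈ closure C ∧
      κ • v + δ • p + z ∈ closure C) : Sml C v z := by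
  intro x hx τ hτ
  obtain ⟨M, hM, hMp⟩ := h.absorb hx p
  obtain ⟨κ, hκ, h1, h2⟩ := hz (τ / M) (by positivity)
  have h3 : τ • x - (τ / M) • p ∈ closure C := by
    have h4 := h.cl_smul (subset_closure hMp) (t := τ / M) (by positivity)
    rw [smul_sub, smul_smul, div_mul_cancel₀ _ hM.ne'] at h4
    exact h4
  refine ⟨κ, hκ, ?_, ?_⟩
  · have h4 : κ • v + τ • x - z = (κ • v + (τ / M) • p - z) + (τ • x - (τ / M) • p) := by abel
    rw [h4]; exact h.cl_add h1 h3
  · have h4 : κ • v + τ • x + z = (κ • v + (τ / M) • p + z) + (τ • x - (τ / M) • p) := by abel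
    rw [h4]; exact h.cl_add h2 h3

theorem fS_compl_split (w : Fin K → V n) {J S : Finset (Fin K)} (hJ : J ⊆ S) :
    fS w Jᶜ = fS w (S \ J) + fS w Sᶜ := by
  have h1 : Jᶜ \ Sᶜ = S \ J := by
    ext i
    simp only [Finset.mem_sdiff, Finset.mem_compl, not_not]
    tauto
  have h2 : Sᶜ ⊆ Jᶜ := Finset.compl_subset_compl.mpr hJ
  rw [← fS_add_sdiff w h2, h1, add_comm]

theorem zpr (hTbf : TbfStmt) : ZprStmt := by
  intro n C Γ Γ₀ K T c h w hw S θ g s W P Q hθ hg hs hz
  have hP : PCone C := h.cc.toPCone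
  obtain ⟨t1, t2, t3, t4, t5, t6, t7, t8, t9, t10, t11, t12, t13⟩ :=
    hTbf n C Γ Γ₀ K T c h w hw
  have hgΓ : ∀ m, g m ∈ Γ := fun m => h.sub (hg m)
  have hwcl : ∀ j, w j ∈ closure C := fun j => h.cc.hul.lamCl _ ((h.pes w hw).2 j)
  have hWcl : ∀ j, W j ∈ closure C := fun j => h.cc.hul.lamCl _ ((h.pes W hz.tw).2 j)
  -- (1)
  have a1 : ∀ i, i ∉ S → P (w i) = W i := by
    intro i hi
    have h1 := hz.lim i
    have h2 := hz.limP (fun _ => w i) (w i) tendsto_const_nhds
    simp only [if_neg hi, one_smul] at h1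
    exact tendsto_nhds_unique h2 h1
  have a2 : ∀ i ∈ S, P (w i) = 0 := by
    intro i hi
    have h1 := hz.lim i
    have h2 := hz.limP (fun _ => w i) (w i) tendsto_const_nhds
    simp only [if_pos hi] at h1
    have h3 : Tendsto (fun m => Real.exp (-θ m)) atTop (𝓝 0) :=
      Real.tendsto_exp_atBot.comp (tendsto_neg_atTop_atBot.comp hθ)
    have h4 := h3.smul h1
    rw [zero_smul] at h4
    refine tendsto_nhds_unique h2 (h4.congr fun m => ?_)
    rw [CC.act_smul, smul_comm (s m), smul_smul, ← Real.exp_add, neg_add_cancel, Real.exp_zero,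
      one_smul]
  have a3 : ∀ i ∈ S, Q (w i) = W i := by
    intro i hi
    have h1 := hz.lim i
    have h2 := hz.limQ (fun _ => w i) (w i) (fun _ => (t6 i S).mpr hi) tendsto_const_nhds
    simp only [if_pos hi] at h1
    refine tendsto_nhds_unique h2 (h1.congr fun m => ?_)
    rw [CC.act_smul, smul_smul]
  -- (2)
  have b1 : ∀ x ∈ closure C, P x ∈ closure C := by
    intro x hx
    refine isClosed_closure.mem_of_tendsto (hz.limP (fun _ => x) x tendsto_const_nhds)
      (Eventually.of_forall fun m => ?_)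
    exact (h.cc.sact_cl_iff (hgΓ m) (hs m)).mpr hx
  have b2 : ∀ x ∈ BI C w S, x ∈ closure C → Q x ∈ closure C := by
    intro x hxB hx
    refine isClosed_closure.mem_of_tendsto (hz.limQ (fun _ => x) x (fun _ => hxB)
      tendsto_const_nhds) (Eventually.of_forall fun m => ?_)
    exact (h.cc.sact_cl_iff (hgΓ m) (mul_pos (hs m) (Real.exp_pos _))).mpr hx
  -- images of the sums
  have d1 : ∀ I : Finset (Fin K), fS W I - P (fS w I) ∈ closure C := by
    intro I
    unfold fS
    rw [map_sum, ← Finset.sum_sub_distrib]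
    refine hP.cl_sum fun i _ => ?_
    by_cases hi : i ∈ S
    · rw [a2 i hi, sub_zero]; exact hWcl i
    · rw [a1 i hi, sub_self]; exact hP.zero_cl
  have d2 : ∀ I : Finset (Fin K), I ⊆ S → Q (fS w I) = fS W I := by
    intro I hI
    unfold fS
    rw [map_sum]
    exact Finset.sum_congr rfl fun i hi => a3 i (hI hi)
  have d3 : P (∑ i, w i) = fS W Sᶜ := by
    unfold fS
    rw [map_sum, ← Finset.sum_add_sum_compl S, Finset.sum_eq_zero (fun i hi => a2 i hi), zero_add]
    exact Finset.sum_congr rfl fun i hi => a1 i (Finset.mem_compl.mp hi)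
  have hfC : ∑ i, w i ∈ C := (h.pes w hw).1.sum_mem
  -- (3)
  have b3 : ∀ x, P x ∈ BI C W Sᶜ := by
    intro x
    obtain ⟨M, hM, h1, h2⟩ := absorb_two hP hfC x
    have h3 := b1 _ (subset_closure h1)
    have h4 := b1 _ (subset_closure h2)
    rw [map_sub, map_smul, d3] at h3
    rw [map_add, map_smul, d3] at h4
    exact fce hP hWcl h3 h4
  -- (4)
  refine ⟨⟨a1, a2, a3⟩, ⟨b1, b2⟩, b3, ?_, ?_⟩
  · intro J hJ q qW hq hqW x
    have hu0 : q (x - q x) = 0 := by
      rw [map_sub, hq.idB _ (hq.mem x), sub_self]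
    have hsm := (hq.ker _).mp hu0
    have hsm' : Sml C (fS W Jᶜ) (P (x - q x)) := by
      refine sml_of hP (p := ∑ i, W i) fun δ hδ => ?_
      obtain ⟨κ, hκ, h1, h2⟩ := hsm _ hfC δ hδ
      have e1 := b1 _ h1
      have e2 := b1 _ h2
      have e3 := hP.cl_smul (d1 Jᶜ) hκ.le
      have e4 := hP.cl_smul (d1 Finset.univ) hδ.le
      rw [fS_univ, fS_univ] at e4
      refine ⟨κ, hκ, ?_, ?_⟩
      · have h4 : κ • fS W Jᶜ + δ • ∑ i, W i - P (x - q x) =
            P (κ • fS w Jᶜ + δ • ∑ i, w i - (x - q x)) + κ • (fS W Jᶜ - P (fS w Jᶜ)) +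
              δ • (∑ i, W i - P (∑ i, w i)) := by
          rw [map_sub P (κ • fS w Jᶜ + δ • ∑ i, w i), map_add, map_smul, map_smul, smul_sub,
            smul_sub]
          abel
        rw [h4]
        exact hP.cl_add (hP.cl_add e1 e3) e4
      · have h4 : κ • fS W Jᶜ + δ • ∑ i, W i + P (x - q x) =
            P (κ • fS w Jᶜ + δ • ∑ i, w i + (x - q x)) + κ • (fS W Jᶜ - P (fS w Jᶜ)) +
              δ • (∑ i, W i - P (∑ i, w i)) := by
          rw [map_add P (κ • fS w Jᶜ + δ • ∑ i, w i), map_add, map_smul, map_smul, smul_sub,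
            smul_sub]
          abel
        rw [h4]
        exact hP.cl_add (hP.cl_add e2 e3) e4
    have h5 := (hqW.ker _).mpr hsm'
    have h6 : P (q x) ∈ BI C W J := by
      rw [← hz.mapP J hJ]
      exact Submodule.mem_map_of_mem (hq.mem x)
    rw [map_sub, map_sub, hqW.idB _ h6] at h5
    exact sub_eq_zero.mp h5
  -- (5)
  · intro J hJ q qW hq hqW x hxS
    have hu0 : q (x - q x) = 0 := by
      rw [map_sub, hq.idB _ (hq.mem x), sub_self]
    have hsm := (hq.ker _).mp hu0
    have hqS : q x ∈ BI C w S := t5 J S hJ (hq.mem x)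
    have huS : x - q x ∈ BI C w S := Submodule.sub_mem _ hxS hqS
    have hSJ : fS w (S \ J) ∈ BI C w S :=
      Submodule.sum_mem _ fun i hi => (t6 i S).mpr (Finset.sdiff_subset hi)
    have hfSB : fS w S ∈ BI C w S := (t1 S).1
    have hsm' : Sml C (fS W Jᶜ) (Q (x - q x)) := by
      refine sml_of hP (p := ∑ i, W i) fun δ hδ => ?_
      obtain ⟨κ, hκ, h1, h2⟩ := hsm _ hfC δ hδ
      have hbase : ∀ u : V n, u ∈ BI C w S →
          κ • fS w Jᶜ + δ • ∑ i, w i + u ∈ closure C →
          κ • fS W Jᶜ + δ • ∑ i, W i + Q u ∈ closure C := by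
        intro u hu h3
        have hB : κ • fS w (S \ J) + δ • fS w S + u ∈ BI C w S :=
          Submodule.add_mem _ (Submodule.add_mem _ (Submodule.smul_mem _ _ hSJ)
            (Submodule.smul_mem _ _ hfSB)) hu
        have h4 : (κ • fS w (S \ J) + δ • fS w S + u) + ∑ m ∈ Sᶜ, (κ + δ) • w m ∈
            closure C := by
          rw [← Finset.smul_sum]
          have h5 : (κ • fS w (S \ J) + δ • fS w S + u) + (κ + δ) • ∑ m ∈ Sᶜ, w m =
              κ • fS w Jᶜ + δ • ∑ i, w i + u := by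
            rw [fS_compl_split w hJ, ← fS_add_compl w S]
            unfold fS
            rw [smul_add, smul_add, add_smul]
            abel
          rw [h5]
          exact h3
        have h6 := t3 S _ hB (fun _ => κ + δ) h4
        have h7 := b2 _ hB h6
        rw [map_add, map_add, map_smul, map_smul, d2 _ Finset.sdiff_subset,
          d2 _ (Finset.Subset.refl S)] at h7
        have h8 := hP.cl_smul (fS_cl hP hWcl Sᶜ) (t := κ + δ) (by positivity)
        have h9 : κ • fS W Jᶜ + δ • ∑ i, W i + Q u =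
            (κ • fS W (S \ J) + δ • fS W S + Q u) + (κ + δ) • fS W Sᶜ := by
          rw [fS_compl_split W hJ, ← fS_add_compl W S, smul_add, smul_add, add_smul]
          abel
        rw [h9]
        exact hP.cl_add h7 h8
      refine ⟨κ, hκ, ?_, ?_⟩
      · have h3 := hbase (-(x - q x)) (Submodule.neg_mem _ huS) (by
          rw [← sub_eq_add_neg]; exact h1)
        rw [map_neg, ← sub_eq_add_neg] at h3
        exact h3
      · exact hbase _ huS h2
    have h5 := (hqW.ker _).mpr hsm'
    have h6 : Q (q x) ∈ BI C W J := by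
      rw [← hz.mapQ J hJ]
      exact Submodule.mem_map_of_mem (hq.mem x)
    rw [map_sub, map_sub, hqW.idB _ h6] at h5
    exact sub_eq_zero.mp h5

end Pool.Agent.NBT.H81
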